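import Pool.Agent.Helper69.FF.St

/-! Module CS of project FF: sections of the cube. -/

set_option autoImplicit false

namespace Pool.Agent.Helper69.FF

open _root_.FF DV

theorem hCS : StCS := by
  intro d hd
  obtain ⟨C, hC, h⟩ := Pool.Agent.Helper66.DS.Core.final_thm d hd
  refine ⟨C, hC, ?_⟩
  intro e he0 he1 M hM
  obtain ⟨T, hT⟩ := h e he0 he1 M hM
  obtain ⟨c, hc, hc2⟩ := hT (normSeminorm ℝ (Fin M → ℝ)) (fun x hx => by simpa using hx) (by
    intro σ x
    simp only [coe_normSeminorm]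
    apply le_antisymm
    · refine (pi_norm_le_iff_of_nonneg (norm_nonneg _)).2 fun i => ?_
      exact norm_le_pi_norm x (σ i)
    · refine (pi_norm_le_iff_of_nonneg (norm_nonneg _)).2 fun i => ?_
      have := norm_le_pi_norm (fun i => x (σ i)) (σ.symm i)
      simpa using this)
  refine ⟨c⁻¹ • T, fun z => ?_⟩
  have h1 := (hc2 z).1
  have h2 := (hc2 z).2
  simp only [coe_normSeminorm] at h1 h2
  have h3 : ‖(c⁻¹ • T) z‖ = c⁻¹ * ‖T z‖ := by
    rw [LinearMap.smul_apply, norm_smul, Real.norm_of_nonneg (inv_nonneg.2 hc.le)]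
  rw [h3]
  constructor
  · rw [inv_mul_eq_div, le_div_iff₀ hc]; linarith
  · rw [inv_mul_eq_div, div_le_iff₀ hc]; linarith

end Pool.Agent.Helper69.FF
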