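import Pool.Agent.Helper69.FF.St

/-! Module MG of project FF: choice of one element in each group by an exponential moment. -/

set_option autoImplicit false

open scoped BigOperators

namespace Pool.Agent.Helper69.FF

open _root_.FF DV

theorem exp_le_one_add_two {x : ℝ} (h0 : 0 ≤ x) (h1 : x ≤ 1) : Real.exp x ≤ 1 + 2 * x := by
  have hc := convexOn_exp.2 (Set.mem_univ (0 : ℝ)) (Set.mem_univ (1 : ℝ)) (sub_nonneg.2 h1) h0 (by ring)
  simp only [smul_eq_mul, mul_zero, mul_one, zero_add, Real.exp_zero] at hc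
  have he : Real.exp 1 < 3 := lt_trans Real.exp_one_lt_d9 (by norm_num)
  nlinarith

theorem hMG : StMG := by
  intro J _ s B hB g t hg hlt
  by_contra hcon
  push Not at hcon
  have hBpos : (0 : ℝ) < B := by exact_mod_cast hB
  -- every choice has a large term
  have h1 : ∀ κ : Fin s → Fin B, (1 : ℝ) ≤ ∑ j, Real.exp (-t j) * ∏ l, Real.exp (g j l (κ l)) := by
    intro κ
    obtain ⟨j, hj⟩ := hcon κ
    have h2 : (1 : ℝ) ≤ Real.exp (-t j) * ∏ l, Real.exp (g j l (κ l)) := by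
      rw [← Real.exp_sum, ← Real.exp_add]
      exact Real.one_le_exp (by linarith)
    refine h2.trans (Finset.single_le_sum (f := fun j => Real.exp (-t j) * ∏ l, Real.exp (g j l (κ l))) ?_ (Finset.mem_univ j))
    intro i _
    exact mul_nonneg (Real.exp_pos _).le (Finset.prod_nonneg fun _ _ => (Real.exp_pos _).le)
  have h3 : ((B : ℝ)) ^ s ≤ ∑ κ : Fin s → Fin B, ∑ j, Real.exp (-t j) * ∏ l, Real.exp (g j l (κ l)) := by
    have : ∑ _κ : Fin s → Fin B, (1 : ℝ) = (B : ℝ) ^ s := by simp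
    rw [← this]
    exact Finset.sum_le_sum fun κ _ => h1 κ
  rw [Finset.sum_comm] at h3
  have h4 : ∀ j, ∑ κ : Fin s → Fin B, Real.exp (-t j) * ∏ l, Real.exp (g j l (κ l)) =
      Real.exp (-t j) * ∏ l, ∑ b, Real.exp (g j l b) := by
    intro j
    rw [← Finset.mul_sum]
    congr 1
    rw [Finset.prod_univ_sum]
    simp
  have h5 : ∀ j l, ∑ b, Real.exp (g j l b) ≤ B * Real.exp (2 / (B : ℝ) * ∑ b, g j l b) := by
    intro j l
    have ha : ∑ b, Real.exp (g j l b) ≤ ∑ b : Fin B, (1 + 2 * g j l b) :=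
      Finset.sum_le_sum fun b _ => exp_le_one_add_two (hg j l b).1 (hg j l b).2
    have hb : ∑ b : Fin B, (1 + 2 * g j l b) = B * (2 / (B : ℝ) * ∑ b, g j l b + 1) := by
      rw [Finset.sum_add_distrib, ← Finset.mul_sum]
      simp only [Finset.sum_const, Finset.card_univ, Fintype.card_fin, nsmul_eq_mul, mul_one]
      field_simp
      ring
    rw [hb] at ha
    exact ha.trans (mul_le_mul_of_nonneg_left (Real.add_one_le_exp _) hBpos.le)
  have h6 : ∀ j, Real.exp (-t j) * ∏ l, ∑ b, Real.exp (g j l b) ≤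
      (B : ℝ) ^ s * Real.exp (-t j + 2 / (B : ℝ) * ∑ l, ∑ b, g j l b) := by
    intro j
    have ha : ∏ l, ∑ b, Real.exp (g j l b) ≤ ∏ l : Fin s, ((B : ℝ) * Real.exp (2 / (B : ℝ) * ∑ b, g j l b)) :=
      Finset.prod_le_prod (fun l _ => Finset.sum_nonneg fun b _ => (Real.exp_pos _).le) fun l _ => h5 j l
    have hb : ∏ l : Fin s, ((B : ℝ) * Real.exp (2 / (B : ℝ) * ∑ b, g j l b)) =
        (B : ℝ) ^ s * Real.exp (2 / (B : ℝ) * ∑ l, ∑ b, g j l b) := by
      rw [Finset.prod_mul_distrib, ← Real.exp_sum, ← Finset.mul_sum]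
      simp
    rw [hb] at ha
    calc Real.exp (-t j) * ∏ l, ∑ b, Real.exp (g j l b)
        ≤ Real.exp (-t j) * ((B : ℝ) ^ s * Real.exp (2 / (B : ℝ) * ∑ l, ∑ b, g j l b)) :=
          mul_le_mul_of_nonneg_left ha (Real.exp_pos _).le
      _ = (B : ℝ) ^ s * Real.exp (-t j + 2 / (B : ℝ) * ∑ l, ∑ b, g j l b) := by
          rw [Real.exp_add]; ring
  have h7 : ((B : ℝ)) ^ s ≤ (B : ℝ) ^ s * ∑ j, Real.exp (-t j + 2 / (B : ℝ) * ∑ l, ∑ b, g j l b) := by
    rw [Finset.mul_sum]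
    refine h3.trans (Finset.sum_le_sum fun j _ => ?_)
    rw [h4 j]
    exact h6 j
  have h8 : (0 : ℝ) < (B : ℝ) ^ s := pow_pos hBpos s
  nlinarith

end Pool.Agent.Helper69.FF
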