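import Pool.Agent.Helper69.FF.St

/-! Module MX of project FF: extreme points of the cube. -/

set_option autoImplicit false

open scoped BigOperators

namespace Pool.Agent.Helper69.FF

open _root_.FF DV

theorem one_sign {X : Type} [AddCommGroup X] [Module ℝ X] (p : Seminorm ℝ X) (w x : X) (a : ℝ) (ha : |a| ≤ 1) :
    ∃ b : Bool, p (w + a • x) ≤ p (w + sg b • x) := by
  by_contra hcon
  push Not at hcon
  have h1 := hcon true
  have h2 := hcon false
  simp only [sg, if_true, Bool.false_eq_true, if_false] at h1 h2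
  obtain ⟨ha1, ha2⟩ := abs_le.1 ha
  have h3 : w + a • x = ((1 + a) / 2) • (w + (1 : ℝ) • x) + ((1 - a) / 2) • (w + (-1 : ℝ) • x) := by
    module
  have h4 : p (w + a • x) ≤ ((1 + a) / 2) * p (w + (1 : ℝ) • x) + ((1 - a) / 2) * p (w + (-1 : ℝ) • x) := by
    conv_lhs => rw [h3]
    refine (map_add_le_add p _ _).trans (le_of_eq ?_)
    rw [map_smul_eq_mul, map_smul_eq_mul, Real.norm_of_nonneg (by linarith), Real.norm_of_nonneg (by linarith)]
  rcases lt_or_ge a 1 with h | h
  · nlinarith
  · have : a = 1 := le_antisymm ha2 h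
    subst this
    exact absurd h1 (lt_irrefl _)

theorem hMX : StMX := by
  intro X _ _ p s x A a w ha
  induction A using Finset.induction_on generalizing w with
  | empty => exact ⟨fun _ => true, by simp⟩
  | insert i A hi ih =>
    obtain ⟨b, hb⟩ := one_sign p (w + ∑ j ∈ A, a j • x j) (x i) (a i) (ha i)
    obtain ⟨σ, hσ⟩ := ih (w + sg b • x i)
    refine ⟨Function.update σ i b, ?_⟩
    rw [Finset.sum_insert hi, Finset.sum_insert hi]
    have h1 : w + (a i • x i + ∑ j ∈ A, a j • x j) = w + ∑ j ∈ A, a j • x j + a i • x i := by abel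
    have h2 : w + ∑ j ∈ A, a j • x j + sg b • x i = w + sg b • x i + ∑ j ∈ A, a j • x j := by abel
    have h3 : ∑ j ∈ A, sg (Function.update σ i b j) • x j = ∑ j ∈ A, sg (σ j) • x j := by
      refine Finset.sum_congr rfl fun j hj => ?_
      have : j ≠ i := fun h => hi (h ▸ hj)
      rw [Function.update_of_ne this]
    rw [h1, Function.update_self, h3]
    rw [h2] at hb
    calc _ ≤ _ := hb
      _ ≤ _ := hσ
      _ = _ := by rw [add_assoc]

end Pool.Agent.Helper69.FF
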