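import Pool.Agent.Helper53.DV.Defs
import Pool.Agent.Helper66.DS.Core3

/-!
# Project FF (MP_d684b1_an, Dvoretzky's theorem, dependence on the accuracy): statements of the modules

THEOREM 1 (few facets). For `k ≥ 2` there is `C` such that, for `0 < ε ≤ 1/2` and `m ≥ 1`, every finite-dimensional normed space whose unit
ball is, up to the factor `1 + ε/4`, an intersection of `m` symmetric slabs and whose dimension is at least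
`C ε^(-(k+5)/2) (1 + log m)^5` has a `k`-dimensional subspace which is Euclidean up to `1 + ε`.
THEOREM 2 (sums of cotype `q` seminorms). The same for a maximum of `m` seminorms with the cotype `q` inequality with constant `A`, if the
dimension is at least `(C A ε^(-(3k+7)/2) (1 + log m)^3)^q`, `C` depending on `k` only.

ALL MODULES ARE INDEPENDENT: what a module uses is a hypothesis of its theorem (for instance `theorem pF1a (hGR : StGR) : StF1a`).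
Put the module `XX` in `Pool/Agent/Helper69/FF/M_XX.lean`, `import Pool.Agent.Helper69.FF.St`, inside `namespace FF`, theorem `pXX`.
-/

set_option autoImplicit false

open scoped BigOperators

namespace FF

open DV

/-- The second Rademacher moment of a system for a seminorm. -/
noncomputable def rad2 {X : Type*} [AddCommGroup X] [Module ℝ X] {N : ℕ} (p : Seminorm ℝ X) (y : Fin N → X) : ℝ :=
  (∑ s : Fin N → Bool, p (∑ i, sg (s i) • y i) ^ 2) / (2 : ℝ) ^ N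

/-- The cotype `q` inequality with constant `A` (for the seminorm `p`). -/
def Cot {X : Type*} [AddCommGroup X] [Module ℝ X] (q A : ℝ) (p : Seminorm ℝ X) : Prop :=
  ∀ (N : ℕ) (y : Fin N → X), ∑ i, p (y i) ^ q ≤ (A * Real.sqrt (rad2 p y)) ^ q

/-- MODULE GR (greedy disjoint blocks, about 80-130 lines). `theorem pGR : StGR`.
PROOF. Choose `β : Finset → Finset` with `β S ⊆ S`, `card (β S) ≤ r`, `V S ≤ V (β S)`. Put `S_0 = univ`, `S_(t+1) = S_t \ β (S_t)` (recursion), `B_t = β (S_t)`. Antitone in `t`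
(subsets), `card S_t ≥ s - r t`, so `S_t` is nonempty for `t ≤ M J` and `c ≤ V (S_t) ≤ K` (monotone; `S_t ⊆ univ`). There is `a < J` with
`V (S_(M a)) ≤ (1+η) V (S_(M (a+1)))`: otherwise, by induction, `c (1+η)^J ≤ V (S_(M J)) (1+η)^J ≤ V (S_0) ≤ K` (for `J = 0` directly `c ≤ K < c`), contradiction. Take
`S = S_(M a)`, `B l = B_(M a + l)` for `l : Fin M`: `V S ≤ (1+η) V (S_(M (a+1))) ≤ (1+η) V (S_(M a + l)) ≤ (1+η) V (B l)` (monotone: `S_(M(a+1)) ⊆ S_(M a + l)` as `l < M`).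
Disjoint: for `t < t'`, `B_t' ⊆ S_t' ⊆ S_(t+1) = S_t \ B_t`. -/
def StGR : Prop := ∀ (s r M J : ℕ) (V : Finset (Fin s) → ℝ) (c K η : ℝ), 0 < c → 0 ≤ η →
  (∀ S S' : Finset (Fin s), S ⊆ S' → V S ≤ V S') → (∀ S : Finset (Fin s), S.Nonempty → c ≤ V S) → V Finset.univ ≤ K →
  (∀ S : Finset (Fin s), ∃ B ⊆ S, B.card ≤ r ∧ V S ≤ V B) → K < c * (1 + η) ^ J → r * (M * J) < s →
  ∃ (S : Finset (Fin s)) (B : Fin M → Finset (Fin s)), c ≤ V S ∧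
    (∀ l, B l ⊆ S ∧ (B l).card ≤ r ∧ V S ≤ (1 + η) * V (B l)) ∧ ∀ l l', l ≠ l' → Disjoint (B l) (B l')

/-- MODULE MG (random choice of one element in each group, about 50-90 lines). `theorem pMG : StMG`.
PROOF. `exp x ≤ 1 + 2 x` for `0 ≤ x ≤ 1` (convexity: `exp x ≤ 1 + (exp 1 - 1) x`, `exp 1 ≤ 3`). Suppose no `κ` works: for every `κ` there is `j` with `∑ l, g j l (κ l) ≥ t j`, so
`1 ≤ ∑ j, exp (∑ l, g j l (κ l) - t j)`. Sum over all `κ : Fin s → Fin B` (there are `B^s`): `B^s ≤ ∑ j, exp (-t j) ∑ κ, ∏ l, exp (g j l (κ l)) =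
∑ j, exp (-t j) ∏ l, ∑ b, exp (g j l b)` (`Finset.prod_univ_sum`, `Fintype.piFinset_univ`), and `∑ b, exp (g j l b) ≤ B + 2 ∑ b, g j l b ≤ B exp ((2/B) ∑ b, g j l b)`
(`Real.add_one_le_exp`). So `B^s ≤ B^s ∑ j, exp (-t j + (2/B) ∑ l, ∑ b, g j l b) < B^s` (`B^s > 0`), contradiction. -/
def StMG : Prop := ∀ (J : Type) [Fintype J] (s B : ℕ), 1 ≤ B → ∀ (g : J → Fin s → Fin B → ℝ) (t : J → ℝ),
  (∀ j l b, 0 ≤ g j l b ∧ g j l b ≤ 1) →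
  ∑ j, Real.exp (-t j + 2 / (B : ℝ) * ∑ l, ∑ b, g j l b) < 1 → ∃ κ : Fin s → Fin B, ∀ j, ∑ l, g j l (κ l) < t j

/-- MODULE SG (random signs, about 50-90 lines). `theorem pSG : StSG`.
PROOF. `lam = τ / v`. Suppose every `ω` has some `j` with `τ < |∑ l, sg (ω l) * c j l|`. Then `1 ≤ ∑ j, exp (-lam τ) (exp (lam Σ_j) + exp (-lam Σ_j))`, `Σ_j = ∑ l, sg (ω l) * c j l`. Sum over the `2^M`
sign vectors: `∑ ω, exp (± lam Σ_j) = ∏ l, (exp (lam c j l) + exp (- lam c j l)) = ∏ l, 2 cosh (lam c j l) ≤ 2^M exp (lam² v / 2)` (`Finset.prod_univ_sum` or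
`Fintype.prod_sum`, `Real.cosh_le_exp_half_sq`). So `2^M ≤ card J * 2 * 2^M * exp (-lam τ + lam² v/2) = 2^M * 2 card J exp (-τ²/(2 v)) < 2^M`. -/
def StSG : Prop := ∀ (J : Type) [Fintype J] (M : ℕ) (c : J → Fin M → ℝ) (v τ : ℝ), 0 < v → 0 < τ →
  (∀ j, ∑ l, c j l ^ 2 ≤ v) → 2 * (Fintype.card J : ℝ) * Real.exp (-(τ ^ 2 / (2 * v))) < 1 →
  ∃ ω : Fin M → Bool, ∀ j, |∑ l, sg (ω l) * c j l| ≤ τ

/-- MODULE CS (sections of the cube, about 20-50 lines). `theorem pCS : StCS`.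
PROOF. `Pool.Agent.Helper66.DS.Core.final_thm d hd` (file `Helper66/DS/Core3.lean`; `E d` there is `EuclideanSpace ℝ (Fin (d+1))`) applied to the permutation invariant norm `p = ‖·‖` (sup norm) of
`Fin M → ℝ`: `T` and `c > 0` with `c ‖z‖ ≤ ‖T z‖ ≤ (1+e) c ‖z‖`; take `c⁻¹ • T`. -/
def StCS : Prop := ∀ d : ℕ, 1 ≤ d → ∃ C : ℝ, 0 < C ∧ ∀ e : ℝ, 0 < e → e ≤ 1 → ∀ M : ℕ, C * e ^ (-(d : ℝ) / 2) ≤ M →
  ∃ T : Eu (d + 1) →ₗ[ℝ] (Fin M → ℝ), ∀ z, ‖z‖ ≤ ‖T z‖ ∧ ‖T z‖ ≤ (1 + e) * ‖z‖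

/-- MODULE MX (extreme points of the cube, about 30-60 lines). `theorem pMX : StMX`.
PROOF. Replace the coefficients by `±1` one at a time (induction on the Finset `A`, for all vectors `w`: `p (w + ∑ i ∈ A, a i • x i) ≤ max` form): for `|a| ≤ 1`,
`w + a x = ((1+a)/2) (w + x) + ((1-a)/2) (w - x)`, so `p (w + a x) ≤ max (p (w + x)) (p (w - x))`. Prove by induction on `A`: for all `w` there is `σ : Fin s → Bool` with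
`p (w + ∑ i ∈ A, a i • x i) ≤ p (w + ∑ i ∈ A, sg (σ i) • x i)` (the new sign with `Function.update`; `insert i A`: first fix the sign at `i`, then use the induction hypothesis with
`w + sg b • x i`). -/
def StMX : Prop := ∀ (X : Type) [AddCommGroup X] [Module ℝ X] (p : Seminorm ℝ X) (s : ℕ) (x : Fin s → X) (A : Finset (Fin s)) (a : Fin s → ℝ) (w : X),
  (∀ i, |a i| ≤ 1) → ∃ σ : Fin s → Bool, p (w + ∑ i ∈ A, a i • x i) ≤ p (w + ∑ i ∈ A, sg (σ i) • x i)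

/-- MODULE SM (second moment from the first one, about 80-140 lines). `theorem pSM : StSM`.
PROOF. Efron-Stein: `DV.pES : DV.StES` (import `Pool.Agent.Helper53.DV.PES`) with `Ω = Bool`, `μ` = the uniform probability measure on `Bool`, `f ω = ‖∑ i, sg (ω i) • x i‖` (bounded by `N`: `Weak2` gives
`‖x i‖ ≤ 1`). With a norming functional `x*` of `∑ sg (ω i) • x i` (`exists_dual_vector''`), `f ω - f (update ω i ω'_i) ≤ |x*(x i)| |sg (ω i) - sg (ω' i)| ≤ 2 |x*(x i)|` and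
`∑ x*(x i)² ≤ 1` by `Weak2` (see `weak_dual` in `Pool.Agent.Helper53.DV.PRE`), so `V = 4`. Then `E f² = (E f)² + Var f ≤ (E f)² + 4`. `∫ over Measure.pi` of a function on the finite type `Fin N → Bool` is the average over
the `2^N` points (`integral_fintype`, `Measure.pi_singleton`). (A direct induction on `N` without measures is fine too.) -/
def StSM : Prop := ∀ (X : Type) [NormedAddCommGroup X] [NormedSpace ℝ X] (N : ℕ) (x : Fin N → X), Weak2 x →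
  (∑ s : Fin N → Bool, ‖∑ i, sg (s i) • x i‖ ^ 2) / (2 : ℝ) ^ N ≤ radAvg x ^ 2 + 4

/-- MODULE F1a (blocks for functionals, about 80-130 lines). `theorem pF1a (hGR : StGR) : StF1a`.
PROOF. `L j = {i | θ ≤ |f j (x i)|}`. `V S = sup over j of ∑ i ∈ S.filter (· ∈ L j), |f j (x i)|` (`0 < m` since `s > 0` and `hex`; use `Finset.sup'` over `univ` or `⨆`, finite). Monotone in `S`. If `i ∈ S`: `j` with
`1/3 ≤ |f j (x i)|`, `θ ≤ 1/3`, so `i ∈ L j` and `V S ≥ 1/3`. `V univ ≤ r` (terms `≤ 1`, `card (L j) ≤ r`). For `S` take the maximising `j` and `B = S.filter (· ∈ L j)`: `V S = ∑ over B ≤ V B`. Apply `hGR`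
with `c = 1/3`, `K = r`, `η = e` (`r < (1/3) (1+e)^J`): `S`, `B' l`. Let `K = V S`, `a l` = the maximising `j` for `B' l`, `B l = (B' l).filter (· ∈ L (a l))`, so `V (B' l) = ∑ i ∈ B l, |f (a l) (x i)|`,
`σ l i` = the sign of `f (a l) (x i)` (`if 0 ≤ _ then 1 else -1`). For every `j`: the sets `(B l).filter (· ∈ L j)` are disjoint subsets of `S.filter (· ∈ L j)`, so the double sum is `≤ V S` (`Finset.sum_biUnion`). -/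
def StF1a : Prop := ∀ (X : Type) [AddCommGroup X] [Module ℝ X] (m s r M J : ℕ) (f : Fin m → X →ₗ[ℝ] ℝ) (x : Fin s → X) (e θ : ℝ),
  0 < e → 0 < θ → θ ≤ 1 / 3 → (∀ j i, |f j (x i)| ≤ 1) → (∀ i, ∃ j, 1 / 3 ≤ |f j (x i)|) →
  (∀ j, (Finset.univ.filter fun i => θ ≤ |f j (x i)|).card ≤ r) → 3 * (r : ℝ) < (1 + e) ^ J → r * (M * J) < s →
  ∃ (B : Fin M → Finset (Fin s)) (a : Fin M → Fin m) (σ : Fin M → Fin s → ℝ) (K : ℝ), 1 / 3 ≤ K ∧ (∀ l i, |σ l i| ≤ 1) ∧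
    (∀ l, (B l).card ≤ r) ∧ (∀ l l', l ≠ l' → Disjoint (B l) (B l')) ∧ (∀ l, ∀ i ∈ B l, θ ≤ |f (a l) (x i)|) ∧
    (∀ j, ∑ l, ∑ i ∈ (B l).filter (fun i => θ ≤ |f j (x i)|), |f j (x i)| ≤ K) ∧
    (∀ l, ∀ i ∈ B l, σ l i * f (a l) (x i) = |f (a l) (x i)|) ∧ ∀ l, K ≤ (1 + e) * ∑ i ∈ B l, |f (a l) (x i)|

/-- MODULE F1b (the section for functionals, about 120-200 lines). `theorem pF1b (hSG : StSG) : StF1b`.
PROOF. `y l = ∑ i ∈ B l, σ l i • x i`, `w j l = ∑ i ∈ (B l).filter (fun i => |f j (x i)| < θ), σ l i * f j (x i)`. Cauchy-Schwarz: `(w j l)² ≤ card (B l) * ∑ i ∈ B l, small, f j (x i)² ≤ r * ...`, and (disjointness)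
`∑ l, (w j l)² ≤ r v`. For the unit vectors `e_t` (`EuclideanSpace.single t 1`) `|T₀ e_t l| ≤ ‖T₀ e_t‖ ≤ 1 + e ≤ 2`, so `∑ l, (T₀ e_t l * w j l)² ≤ 4 r v`. `hSG` with index type `Fin m × Fin k`, `v := 4 r v`,
`τ = e / (3 sqrt k)`: `τ²/(8 r v) = e²/(72 k r v)`. It gives signs `ω` with `|∑ l, sg (ω l) * (T₀ e_t l * w j l)| ≤ τ`. `T z = ∑ l, (sg (ω l) * T₀ z l) • y l` (linear). For all `z = ∑ z_t e_t`:
`|∑ l, sg (ω l) T₀ z l w j l| ≤ ∑ t, |z_t| τ ≤ sqrt k ‖z‖ τ = (e/3) ‖z‖ ≤ e K ‖z‖` (`K ≥ 1/3`). Call this (W). Let `u j l = ∑ i ∈ (B l).filter (θ ≤ ..), σ l i * f j (x i)`: `|u j l| ≤ U j l := ∑ i ∈ (B l).filter.., |f j (x i)|`,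
`∑ l, U j l ≤ K`, `f j (y l) = u j l + w j l`. UPPER: `|f j (T z)| ≤ ∑ l, |T₀ z l| U j l + |W| ≤ (1+e) ‖z‖ K + e K ‖z‖`. LOWER: `z = 0`: any `j` (`0 < m`). `z ≠ 0`: `M > 0` (`‖z‖ ≤ ‖T₀ z‖`), `l` with
`|T₀ z l| = ‖T₀ z‖ ≥ ‖z‖`, `j = a l`: all `i ∈ B l` are `θ ≤ ..`, so `w j l = 0`, `f j (y l) = U j l ≥ K/(1+e)`; the other `l'`: `∑ l' ≠ l, |T₀ z l'| U j l' ≤ (1+e) ‖z‖ (K - K/(1+e)) = e K ‖z‖`. So
`|f j (T z)| ≥ ‖z‖ K/(1+e) - e K ‖z‖ - e K ‖z‖ ≥ K (1 - 3 e) ‖z‖`. -/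
def StF1b : Prop := ∀ (X : Type) [AddCommGroup X] [Module ℝ X] (m k s r M : ℕ) (f : Fin m → X →ₗ[ℝ] ℝ) (x : Fin s → X) (e θ v K : ℝ)
  (B : Fin M → Finset (Fin s)) (a : Fin M → Fin m) (σ : Fin M → Fin s → ℝ) (T₀ : Eu k →ₗ[ℝ] (Fin M → ℝ)),
  0 < e → e ≤ 1 / 80 → 0 < v → 1 ≤ r → 1 ≤ k → 1 ≤ m →
  (∀ j, ∑ i, (if |f j (x i)| < θ then f j (x i) ^ 2 else 0) ≤ v) →
  2 * ((m : ℝ) * k) * Real.exp (-(e ^ 2 / (72 * k * r * v))) < 1 →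
  (∀ z, ‖z‖ ≤ ‖T₀ z‖ ∧ ‖T₀ z‖ ≤ (1 + e) * ‖z‖) →
  1 / 3 ≤ K → (∀ l i, |σ l i| ≤ 1) → (∀ l, (B l).card ≤ r) → (∀ l l', l ≠ l' → Disjoint (B l) (B l')) →
  (∀ l, ∀ i ∈ B l, θ ≤ |f (a l) (x i)|) → (∀ j, ∑ l, ∑ i ∈ (B l).filter (fun i => θ ≤ |f j (x i)|), |f j (x i)| ≤ K) →
  (∀ l, ∀ i ∈ B l, σ l i * f (a l) (x i) = |f (a l) (x i)|) → (∀ l, K ≤ (1 + e) * ∑ i ∈ B l, |f (a l) (x i)|) →
  ∃ T : Eu k →ₗ[ℝ] X, (∀ z j, |f j (T z)| ≤ K * (1 + 2 * e) * ‖z‖) ∧ ∀ z, ∃ j, K * (1 - 3 * e) * ‖z‖ ≤ |f j (T z)|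

/-- MODULE G1a (blocks for seminorms, about 100-160 lines). `theorem pG1a (hGR : StGR) (hMX : StMX) : StG1a`.
PROOF. `L j = {i | θ ≤ p j (x i)}`. `V S = sup over j and over sign vectors σ : Fin s → Bool of p j (∑ i ∈ S.filter (· ∈ L j), sg (σ i) • x i)` (a finite supremum over `Fin m × (Fin s → Bool)`, `0 < m`). By `hMX` (with `w = 0`)
`p j (∑ i ∈ S.filter (· ∈ L j), c i • x i) ≤ V S` whenever `|c i| ≤ 1` for all `i`. Hence `V` is monotone (`S ⊆ S'`: extend the signs by `0` outside `S`). If `i ∈ S`: `j` with `1/3 ≤ p j (x i)`, `i ∈ L j`, `V S ≥ V {i} ≥ 1/3`.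
`V univ ≤ r` (triangle inequality, `p j (x i) ≤ 1`, `card (L j) ≤ r`). For `S` take the maximising `(j, σ)` and `B = S.filter (· ∈ L j)`: `card B ≤ r`, `V S ≤ V B`. `hGR` with `c = 1/3`, `K = r`, `η = e` gives `S`, `B' l`.
`K = V S`; `(a l, τ l)` maximising for `B' l`, `B l = (B' l).filter (· ∈ L (a l))`, `σ l i = sg (τ l i)`. Fourth claim: for `j`, `c`: the coefficients `c l i` on the disjoint sets `(B l).filter (· ∈ L j) ⊆ S.filter (· ∈ L j)` and `0`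
elsewhere are one coefficient vector with entries `≤ 1` in absolute value on `S.filter (· ∈ L j)` (`Finset.sum_biUnion` or `∑ l, if i ∈ B l then c l i else 0`). -/
def StG1a : Prop := ∀ (X : Type) [AddCommGroup X] [Module ℝ X] (m s r M J : ℕ) (p : Fin m → Seminorm ℝ X) (x : Fin s → X) (e θ : ℝ),
  0 < e → 0 < θ → θ ≤ 1 / 3 → (∀ j i, p j (x i) ≤ 1) → (∀ i, ∃ j, 1 / 3 ≤ p j (x i)) →
  (∀ j, (Finset.univ.filter fun i => θ ≤ p j (x i)).card ≤ r) → 3 * (r : ℝ) < (1 + e) ^ J → r * (M * J) < s →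
  ∃ (B : Fin M → Finset (Fin s)) (a : Fin M → Fin m) (σ : Fin M → Fin s → ℝ) (K : ℝ), 1 / 3 ≤ K ∧ (∀ l i, |σ l i| ≤ 1) ∧
    (∀ l l', l ≠ l' → Disjoint (B l) (B l')) ∧
    (∀ (j : Fin m) (c : Fin M → Fin s → ℝ), (∀ l i, |c l i| ≤ 1) →
      p j (∑ l, ∑ i ∈ (B l).filter (fun i => θ ≤ p j (x i)), c l i • x i) ≤ K) ∧
    ∀ l, K ≤ (1 + e) * p (a l) (∑ i ∈ B l, σ l i • x i)

/-- MODULE G1b (the section for seminorms, about 80-140 lines). `theorem pG1b : StG1b`.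
PROOF. `y l = ∑ i ∈ B l, σ l i • x i`, `T z = ∑ l, T₀ z l • y l`. CLAIM: if `|c l| ≤ D` for all `l` (`D ≥ 0`), then `p j (∑ l, c l • y l) ≤ D K (1 + e)` for every `j`. (`D = 0` clear; scale to `D = 1`.) Split `B l` into `θ ≤ p j (x i)` and
`< θ`: the first part is `≤ K` by hypothesis (coefficients `c l * σ l i`), the second `≤ ∑ l, ∑ i ∈ B l small, p j (x i) ≤ ∑ i small, p j (x i) ≤ e/3 ≤ e K` (disjointness, triangle inequality). UPPER: `|T₀ z l| ≤ ‖T₀ z‖ ≤ (1+e) ‖z‖`, so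
`p j (T z) ≤ (1+e)² K ‖z‖ ≤ K (1 + 3 e) ‖z‖`. LOWER: `z = 0`: any `j` (`0 < m`). `z ≠ 0`: `D = ‖T₀ z‖ ≥ ‖z‖ > 0`, `l` with `|T₀ z l| = D` (`M > 0`), `j = a l`, `w = ∑ l' ≠ l, T₀ z l' • y l'`: `2 D p j (y l) = p j (2 T₀ z l • y l) ≤
p j (T z) + p j (T₀ z l • y l - w)` and the last is `≤ D K (1+e)` by the claim. `p j (y l) ≥ K/(1+e)`. So `p j (T z) ≥ 2 D K/(1+e) - D K (1+e) ≥ D K (1 - 3 e) ≥ K (1 - 3e) ‖z‖`. -/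
def StG1b : Prop := ∀ (X : Type) [AddCommGroup X] [Module ℝ X] (m k s M : ℕ) (p : Fin m → Seminorm ℝ X) (x : Fin s → X) (e θ K : ℝ)
  (B : Fin M → Finset (Fin s)) (a : Fin M → Fin m) (σ : Fin M → Fin s → ℝ) (T₀ : Eu k →ₗ[ℝ] (Fin M → ℝ)),
  0 < e → e ≤ 1 / 80 → 1 ≤ m →
  (∀ j, ∑ i, (if p j (x i) < θ then p j (x i) else 0) ≤ e / 3) →
  (∀ z, ‖z‖ ≤ ‖T₀ z‖ ∧ ‖T₀ z‖ ≤ (1 + e) * ‖z‖) →
  1 / 3 ≤ K → (∀ l i, |σ l i| ≤ 1) → (∀ l l', l ≠ l' → Disjoint (B l) (B l')) →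
  (∀ (j : Fin m) (c : Fin M → Fin s → ℝ), (∀ l i, |c l i| ≤ 1) →
    p j (∑ l, ∑ i ∈ (B l).filter (fun i => θ ≤ p j (x i)), c l i • x i) ≤ K) →
  (∀ l, K ≤ (1 + e) * p (a l) (∑ i ∈ B l, σ l i • x i)) →
  ∃ T : Eu k →ₗ[ℝ] X, (∀ z j, p j (T z) ≤ K * (1 + 3 * e) * ‖z‖) ∧ ∀ z, ∃ j, K * (1 - 3 * e) * ‖z‖ ≤ p j (T z)

/-- MODULE E1 (selection, square summable case, about 60-110 lines). `theorem pE1 (hMG : StMG) : StE1`.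
PROOF. An injection `Fin s × Fin B → Fin N`, `(l, b) ↦ l * B + b` (or `finProdFinEquiv` and `Fin.castLE`), call it `u`. `hMG` with index type `Fin m ⊕ Fin m` (or `Fin m × Bool`): first family
`g j l b = if |w j (u l b)| < θ then w j (u l b)^2/θ^2 else 0`, target `v/θ^2`; second family `if θ ≤ |w j (u l b)| then 1 else 0`, target `r`. Both are `≤ w j (u l b)^2/θ^2`, so their double sums are `≤ 1/θ^2` (injective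
reindexing, `∑ i, w j i ^ 2 ≤ 1`) and `(2/B) * (1/θ^2) ≤ 1`. The sum of exponentials is `≤ m (exp (-v/θ^2 + 1) + exp (-r + 1)) < 1`. `ι l = u l (κ l)`; the sum of the indicators is the cardinality. -/
def StE1 : Prop := ∀ (m N s B r : ℕ) (w : Fin m → Fin N → ℝ) (θ v : ℝ), 0 < θ → 1 ≤ B → s * B ≤ N → 2 / θ ^ 2 ≤ (B : ℝ) →
  (m : ℝ) * (Real.exp (-(v / θ ^ 2) + 1) + Real.exp (-(r : ℝ) + 1)) < 1 → (∀ j, ∑ i, w j i ^ 2 ≤ 1) →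
  ∃ ι : Fin s → Fin N, ∀ j, (Finset.univ.filter fun l => θ ≤ |w j (ι l)|).card ≤ r ∧
    ∑ l, (if |w j (ι l)| < θ then w j (ι l) ^ 2 else 0) ≤ v

/-- MODULE E2 (selection, `q`-summable case, about 80-130 lines). `theorem pE2 (hMG : StMG) : StE2`.
PROOF. As E1: injection `u : Fin s × Fin B → Fin N`; the `s B` vectors in its image have, by Hoelder (`Real.inner_le_Lp_mul_Lq` or the power mean inequality `Real.inner_le_nnorm_mul_nnorm`/`Real.arith_mean_le_rpow_mean`),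
`∑ (l, b), w j (u l b) ≤ (s B)^(1 - 1/q) (∑ w^q)^(1/q) ≤ (s B) * D / (s B)^(1/q)`. If `s = 0` trivial. `hMG` with the families `if w < θ then w/θ else 0` (target `t/θ`) and `if θ ≤ w then 1 else 0` (target `r`), both `≤ w/θ`:
`(2/B) * ∑∑ g ≤ (2/B) (s B) D / ((s B)^(1/q) θ) = 2 s D / (θ (s B)^(1/q)) ≤ 1`. The sum of the exponentials is `≤ m (exp (-t/θ + 1) + exp (-r + 1)) < 1`. -/
def StE2 : Prop := ∀ (m N s B r : ℕ) (w : Fin m → Fin N → ℝ) (θ t q D : ℝ), 0 < θ → 1 ≤ q → 0 ≤ D → 1 ≤ B → s * B ≤ N →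
  2 * (s : ℝ) / θ * D ≤ ((s : ℝ) * B) ^ (1 / q) →
  (m : ℝ) * (Real.exp (-(t / θ) + 1) + Real.exp (-(r : ℝ) + 1)) < 1 → (∀ j i, 0 ≤ w j i) → (∀ j, ∑ i, w j i ^ q ≤ D ^ q) →
  ∃ ι : Fin s → Fin N, ∀ j, (Finset.univ.filter fun l => θ ≤ w j (ι l)).card ≤ r ∧
    ∑ l, (if w j (ι l) < θ then w j (ι l) else 0) ≤ t

/-- MODULE P1 (parameters of Theorem 1, about 100-170 lines, real arithmetic). `theorem pP1 : StP1`. Here `d = k - 1`, so `k = d + 1`.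
PROOF. `e = ε/40`, `Λ = 1 + log (16 m (d+1))` (`≥ 4` as `16 m (d+1) ≥ 32`), `r = ⌈Λ⌉₊` (`Λ ≤ r ≤ 2 Λ`), `v = e²/(72 (d+1) r Λ)`, `θ = sqrt (v/Λ)` (`θ² = v/Λ ≤ 1/9`), `B = ⌈2/θ²⌉₊ ≤ 4/θ² = 288 (d+1) r Λ²/e² ≤ 576 (d+1) Λ³/e²`,
`J = ⌈2 log (3 r)/e⌉₊ + 1`: `(1+e)^J ≥ exp (J e/2) > 3 r` (`log (1+e) ≥ e/2` for `e ≤ 1`), `J ≤ 2 log (3 r)/e + 2 ≤ 6 Λ/e` (`log (3 r) ≤ log (6 Λ) ≤ 2 Λ`), `M = ⌈C₀ e^(-d/2)⌉₊ ≤ (C₀ + 1) e^(-d/2)`, `s = r (M J) + 1 ≤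
(12 (C₀+1) + 1) Λ² e^(-d/2 - 1)`. Then `2 s B ≤ C' Λ^5 e^(-d/2 - 3) = C'' Λ^5 ε^(-(d+6)/2)` and `Λ ≤ (1 + log (16 (d+1))) (1 + log m)`. Exponentials: `v/θ² = Λ`, `r ≥ Λ`, `exp (-Λ + 1) = 1/(16 m (d+1))`, so the selection
condition is `m * 2/(16 m (d+1)) < 1`; `e²/(72 (d+1) r v) = Λ`, `2 m (d+1) exp (-Λ) ≤ 2/16 < 1`. -/
def StP1 : Prop := ∀ d : ℕ, 1 ≤ d → ∀ C₀ : ℝ, 0 < C₀ → ∃ C : ℝ, 0 < C ∧ ∀ ε : ℝ, 0 < ε → ε ≤ 1 / 2 → ∀ m n : ℕ, 1 ≤ m →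
  C * ε ^ (-((d : ℝ) + 6) / 2) * (1 + Real.log m) ^ 5 ≤ n →
  ∃ (s r M J B : ℕ) (θ v : ℝ), 0 < θ ∧ θ ≤ 1 / 3 ∧ 0 < v ∧ 1 ≤ r ∧ 1 ≤ B ∧ 2 * (s * B) ≤ n ∧
    3 * (r : ℝ) < (1 + ε / 40) ^ J ∧ r * (M * J) < s ∧ C₀ * (ε / 40) ^ (-(d : ℝ) / 2) ≤ M ∧ 2 / θ ^ 2 ≤ (B : ℝ) ∧
    (m : ℝ) * (Real.exp (-(v / θ ^ 2) + 1) + Real.exp (-(r : ℝ) + 1)) < 1 ∧
    2 * ((m : ℝ) * (d + 1 : ℕ)) * Real.exp (-((ε / 40) ^ 2 / (72 * (d + 1 : ℕ) * r * v))) < 1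

/-- MODULE P2 (parameters of Theorem 2, about 100-180 lines, real arithmetic). `theorem pP2 : StP2`.
PROOF. `e = ε/40`, `Λ = 1 + log (16 m (d+1)) ≥ 4`, `r = ⌈Λ⌉₊ ≤ 2 Λ`, `θ = (e/3)/Λ ≤ 1/3`, `J`, `M`, `s = r (M J) + 1` as in P1 (`s ≤ c₁ Λ² e^(-d/2 - 1)`). `Q = (2 s/θ) * (A C₁ (1/ε)^(d+3))`, `B = ⌈Q^q / s⌉₊`. `Q^q ≤ s B`, so
`Q ≤ (s B)^(1/q)`, `1 ≤ B` (`Q > 0`). `s B ≤ Q^q + s ≤ 2 Q'^q` with `Q' = (2 s/θ) A (C₁ + 1) (1/ε)^(d+3) ≥ s ≥ 1` and `q ≥ 1`, so `2 s B ≤ 4 Q'^q ≤ (4 Q')^q` and `4 Q' ≤ C A ε^(-(3 d + 10)/2) (1 + log m)^3`: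
`s/θ ≤ C Λ³ e^(-d/2 - 2)`, `(1/ε)^(d+3)`, total exponent `d/2 + 2 + d + 3 = (3 d + 10)/2`; `Λ ≤ (1 + log (16 (d+1))) (1 + log m)`. `C` must not depend on `q`, `A`, `m`, `ε`. Exponentials: `(e/3)/θ = Λ`, `r ≥ Λ`,
`m (exp (-Λ + 1) + exp (-r + 1)) ≤ 2 m/(16 m (d+1)) < 1`. -/
def StP2 : Prop := ∀ d : ℕ, 1 ≤ d → ∀ C₀ C₁ : ℝ, 0 < C₀ → 0 < C₁ → ∃ C : ℝ, 0 < C ∧ ∀ ε : ℝ, 0 < ε → ε ≤ 1 / 2 → ∀ m n : ℕ, 1 ≤ m →
  ∀ q A : ℝ, 1 ≤ q → 1 ≤ A → (C * A * ε ^ (-(3 * (d : ℝ) + 10) / 2) * (1 + Real.log m) ^ 3) ^ q ≤ n →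
  ∃ (s r M J B : ℕ) (θ : ℝ), 0 < θ ∧ θ ≤ 1 / 3 ∧ 1 ≤ r ∧ 1 ≤ B ∧ 2 * (s * B) ≤ n ∧
    3 * (r : ℝ) < (1 + ε / 40) ^ J ∧ r * (M * J) < s ∧ C₀ * (ε / 40) ^ (-(d : ℝ) / 2) ≤ M ∧
    2 * (s : ℝ) / θ * (A * (C₁ * (1 / ε) ^ (d + 3))) ≤ ((s : ℝ) * B) ^ (1 / q) ∧
    (m : ℝ) * (Real.exp (-((ε / 40) / 3 / θ) + 1) + Real.exp (-(r : ℝ) + 1)) < 1

/-- MODULE T1 (assembly of Theorem 1, about 80-130 lines). `theorem pT1 (hDR2 : DV.StDR2) (hF1a : StF1a) (hF1b : StF1b) (hE1 : StE1) (hP1 : StP1) (hCS : StCS) : StT1` (`DV.StDR2` is in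
`Pool.Agent.Helper53.DV.St`, import it).
PROOF. `C₀` from `hCS d`, `C = max C' 1` with `C'` from `hP1 d C₀`. `n = finrank` (positive), `hDR2`: `x : Fin N → X` with `n ≤ 2 N`, `Weak2`, `1/2 ≤ ‖x i‖`. `2 s B ≤ n ≤ 2 N` gives `s B ≤ N`. `‖x i‖ ≤ 1` (`Weak2` with `Pi.single`),
`|f j (x i)| ≤ 1`, for each `i` some `j` has `|f j (x i)| ≥ (1/2)/(1 + ε/4) ≥ 1/3`, and `∑ i, f j (x i)² ≤ 1` (`Weak2` with `a i = f j (x i)`: `∑ a_i² = f j (∑ a_i x_i) ≤ ‖∑ a_i x_i‖ ≤ sqrt (∑ a_i²)`). `hE1` with `w j i = f j (x i)`: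
`ι`; `x' = x ∘ ι`. `hF1a`, `T₀` from `hCS` with `e = ε/40`, `hF1b`: `T`, `K`. `T' = (K (1 - 3 e))⁻¹ • T`: `‖T z‖ ≥ |f j (T z)| ≥ K (1 - 3e) ‖z‖`, `‖T z‖ ≤ (1 + ε/4) |f j (T z)| ≤ (1 + ε/4) K (1 + 2 e) ‖z‖`, and
`(1 + ε/4)(1 + 2e) ≤ (1 + ε)(1 - 3e)` for `e = ε/40`, `ε ≤ 1/2`. `0 < m` is given. -/
def StT1 : Prop := ∀ d : ℕ, 1 ≤ d → ∃ C : ℝ, 0 < C ∧ ∀ ε : ℝ, 0 < ε → ε ≤ 1 / 2 →
  ∀ (X : Type) [NormedAddCommGroup X] [NormedSpace ℝ X] [FiniteDimensional ℝ X] (m : ℕ) (f : Fin m → X →ₗ[ℝ] ℝ), 1 ≤ m →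
  (∀ j x, |f j x| ≤ ‖x‖) → (∀ x, ∃ j, ‖x‖ ≤ (1 + ε / 4) * |f j x|) →
  C * ε ^ (-((d : ℝ) + 6) / 2) * (1 + Real.log m) ^ 5 ≤ Module.finrank ℝ X → HasEu (d + 1) ε X

/-- MODULE T2 (assembly of Theorem 2, about 100-160 lines). `theorem pT2 (hDR2 : DV.StDR2) (hRE : DV.StRE) (hRC : DV.StRC) (hSM : StSM) (hG1a : StG1a) (hG1b : StG1b) (hE2 : StE2) (hP2 : StP2) (hCS : StCS) : StT2`.
PROOF. As T1, `k = d + 1`. If not `HasEu k ε X`: for the vectors `x` of `hDR2`, `hRE k`, `hRC k` (a unit vector of `Eu (d+1)` exists) give `radAvg x ≤ C_RC C_RE (1/ε)^(k+2)`, so with `C₁ = C_RC C_RE + 2`: `radAvg x + 2 ≤ C₁ (1/ε)^(d+3)`. `hSM`: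
the second moment of the norm is `≤ (radAvg x)² + 4 ≤ (radAvg x + 2)²`, `rad2 (p j) x` is at most that (`p j ≤ ‖·‖`), so the cotype inequality (`Cot`) gives `∑ i, p j (x i)^q ≤ (A (radAvg x + 2))^q ≤ D^q`, `D = A (C₁ (1/ε)^(d+3))`.
Parameters from `hP2 d C₀ C₁` (`C₀` from `hCS d`), `C = max C' 1` (so that `finrank > 0`; `A ≥ 1`, `ε^(..) ≥ 1`). `hE2` with `w j i = p j (x i)`, `t = e/3`: `ι`, `x' = x ∘ ι`. `hG1a`, `hG1b`, `T₀` from `hCS`, then scaling as in T1: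
`(1 + ε/4)(1 + 3e) ≤ (1 + ε)(1 - 3e)`. -/
def StT2 : Prop := ∀ d : ℕ, 1 ≤ d → ∃ C : ℝ, 0 < C ∧ ∀ ε : ℝ, 0 < ε → ε ≤ 1 / 2 →
  ∀ (X : Type) [NormedAddCommGroup X] [NormedSpace ℝ X] [FiniteDimensional ℝ X] (m : ℕ) (p : Fin m → Seminorm ℝ X) (q A : ℝ), 1 ≤ m → 1 ≤ q → 1 ≤ A →
  (∀ j x, p j x ≤ ‖x‖) → (∀ x, ∃ j, ‖x‖ ≤ (1 + ε / 4) * p j x) → (∀ j, Cot q A (p j)) →
  (C * A * ε ^ (-(3 * (d : ℝ) + 10) / 2) * (1 + Real.log m) ^ 3) ^ q ≤ Module.finrank ℝ X → HasEu (d + 1) ε X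

end FF
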