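import Pool.Agent.Helper53.DV.PDR1
import Pool.Agent.Helper53.DV.PDR2
import Pool.Agent.Helper53.DV.PRE
import Pool.Agent.Helper53.DV.PRC
import Pool.Agent.Helper53.DV.PBM
import Pool.Agent.Helper53.DV.PNE
import Pool.Agent.Helper53.DV.PES
import Pool.Agent.Helper69.FF.St
import Pool.Agent.Helper69.FF.M_CS
import Pool.Agent.Helper69.FF.M_MG
import Pool.Agent.Helper69.FF.M_MX
import Pool.Agent.Helper38.FF.M_GR
import Pool.Agent.Helper40.FF.M_SG
import Pool.Agent.Helper45.FF.M_SM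
import Pool.Agent.Helper89.FF.M_F1a
import Pool.Agent.Helper36.FF.M_F1b
import Pool.Agent.Helper85.FF.M_G1a
import Pool.Agent.Helper60.FF.M_G1b
import Pool.Agent.Helper15.FF.M_E1
import Pool.Agent.Helper84.FF.M_E2
import Pool.Agent.Helper74.FF.M_P1
import Pool.Agent.Helper74.FF.M_P2
import Pool.Agent.Helper42.FF.M_T1
import Pool.Agent.Helper95.FF.M_T2

/-! Project FF: everything together. -/

set_option autoImplicit false

namespace FF

open Pool.Agent

theorem allT1 : StT1 :=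
  Helper42.FF.hT1 (DV.pDR2 DV.pDR1) (Helper89.FF.hF1a Helper38.FF.hGR) (Helper36.FF.hF1b Helper40.FF.hSG)
    (Helper15.FF.hE1 Helper69.FF.hMG) Helper74.FF.hP1 Helper69.FF.hCS

theorem allT2 : StT2 :=
  Helper95.FF.hT2 (DV.pDR2 DV.pDR1) (DV.pRE DV.pES DV.pBM DV.pNE) (DV.pRC DV.pBM) Helper45.FF.hSM
    (Helper85.FF.hG1a Helper38.FF.hGR Helper69.FF.hMX) Helper60.FF.hG1b (Helper84.FF.hE2 Helper69.FF.hMG)
    Helper74.FF.hP2 Helper69.FF.hCS

end FF
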